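import Pool.Agent.Helper92.RK.Alg

set_option autoImplicit false
set_option linter.all false

namespace Pool.Agent.Helper52.RK.ERR

open Finset
open Pool.Agent.Helper92
open Pool.Agent.Helper92.RK

theorem prob_pr {n : ℕ} (E : (Fin n → Bool) → Prop) : AM.prob E = pr E := by
  classical
  rw [AM.prob_eq]
  unfold pr
  have : (Fintype.card (Fin n → Bool) : ℝ) = 2 ^ n := by simp
  rw [this]

theorem cnt_ne {n : ℕ} (F : Finset (Tm n)) (k : ℕ) (hR : Read k F) :
    (F.filter fun T => T.Nonempty).card ≤ k * n := by
  classical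
  have h1 : (F.filter fun T => T.Nonempty) ⊆
      (univ : Finset (Fin n)).biUnion fun i => F.filter fun T => i ∈ vr T := by
    intro T hT
    obtain ⟨hT1, l, hl⟩ := mem_filter.1 hT
    refine mem_biUnion.2 ⟨l.1, mem_univ _, mem_filter.2 ⟨hT1, ?_⟩⟩
    exact mem_image_of_mem _ hl
  refine (card_le_card h1).trans (card_biUnion_le.trans ?_)
  refine (sum_le_sum fun i _ => ?_).trans (b := ∑ _i : Fin n, k) ?_
  · refine le_trans (le_of_eq ?_) (hR i)
    congr!
  · simp [mul_comm]

theorem pr_union {n : ℕ} (E E1 : (Fin n → Bool) → Prop) (S : Finset (Tm n))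
    (h : ∀ x, E x → E1 x ∨ ∃ T ∈ S, Sat T x) : pr E ≤ pr E1 + ∑ T ∈ S, pr (Sat T) := by
  classical
  unfold pr
  have h1 : (univ.filter E) ⊆ (univ.filter E1) ∪ S.biUnion fun T => univ.filter (Sat T) := by
    intro x hx
    rcases h x (mem_filter.1 hx).2 with h2 | ⟨T, hT, h2⟩
    · exact mem_union_left _ (mem_filter.2 ⟨mem_univ _, h2⟩)
    · exact mem_union_right _ (mem_biUnion.2 ⟨T, hT, mem_filter.2 ⟨mem_univ _, h2⟩⟩)
  have h2 : (univ.filter E).card ≤ (univ.filter E1).card + ∑ T ∈ S, (univ.filter (Sat T)).card :=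
    (card_le_card h1).trans ((card_union_le _ _).trans (Nat.add_le_add_left card_biUnion_le _))
  rw [← Finset.sum_div, ← add_div]
  apply div_le_div_of_nonneg_right _ (by positivity)
  have h3 : ((univ.filter E).card : ℝ) ≤
      (univ.filter E1).card + ∑ T ∈ S, ((univ.filter (Sat T)).card : ℝ) := by
    exact_mod_cast h2
  convert h3 using 2

theorem main (hCOR : S_COR) (hSAT : S_SAT) : S_ERR := by
  intro k L0 r D u q B e n t F G s N hq he hs hW ht hR hCon hEst hGF hG hVis hN
  classical
  have ht1 : 4 ≤ t := by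
    calc 4 = 4 * 1 * (0 + 1) := by norm_num
      _ ≤ 4 * e * (k * n + 1) := by gcongr; omega
      _ ≤ t := ht
  have htR : (0 : ℝ) < t := by
    exact_mod_cast (by omega : 0 < t)
  have hcover : ∀ y : Fin n → Bool, (vb F y = true ∧
      hv (cand t L0 r D u q B n t s, N) (List.ofFn y) = false) →
      (val F y ∧ ∀ T ∈ G, ¬ Sat T y) ∨
        ∃ T ∈ F.filter (fun T => T.Nonempty ∧ t < 2 ^ T.card), Sat T y := by
    rintro y ⟨h1, h2⟩
    have hval : val F y := by
      unfold vb at h1
      exact of_decide_eq_true h1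
    by_cases hno : ∀ T ∈ G, ¬ Sat T y
    · exact Or.inl ⟨hval, hno⟩
    · right
      push Not at hno
      obtain ⟨T, hTG, hTs⟩ := hno
      have hTF := hGF hTG
      refine ⟨T, ?_, hTs⟩
      have hbig : t < 2 ^ T.card := by
        by_contra hle
        rw [not_lt] at hle
        obtain ⟨V, hV, hVT⟩ := hCOR L0 r D u q B n t F s T hq hs hW hEst hle (hCon T hTF)
          (hVis T hTG)
        unfold hv at h2
        rw [List.any_eq_false] at h2
        have h3 := h2 V hV
        rw [List.all_eq_true] at h3
        push Not at h3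
        obtain ⟨z, hzN, hz⟩ := h3
        obtain ⟨y', rfl, hy'⟩ := hN z hzN
        have hz2 : (V.all fun i => decide ((List.ofFn y').getD i false =
            (List.ofFn y).getD i false)) = true := by
          by_contra hc
          apply hz
          rw [Bool.not_eq_true] at hc
          rw [hc]
          rfl
        rw [List.all_eq_true] at hz2
        have hagree : ∀ i ∈ vr T, y' i = y i := by
          intro i hi
          have h4 := of_decide_eq_true (hz2 i (hVT i hi))
          rwa [AM.getD_ofFn, AM.getD_ofFn] at h4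
        have hsat' : Sat T y' := by
          intro l hl
          rw [hagree l.1 (mem_image_of_mem _ hl)]
          exact hTs l hl
        have : vb F y' = true := by
          unfold vb
          exact decide_eq_true ⟨T, hTF, hsat'⟩
        rw [this] at hy'
        exact absurd hy' (by simp)
      refine mem_filter.2 ⟨hTF, ?_, hbig⟩
      rw [← card_pos]
      by_contra h0
      have h5 : T.card = 0 := by omega
      rw [h5] at hbig
      simp at hbig
      omega
  rw [prob_pr]
  refine (pr_union _ _ _ hcover).trans ?_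
  have hsum : ∑ T ∈ F.filter (fun T => T.Nonempty ∧ t < 2 ^ T.card), pr (Sat T) ≤
      1 / (4 * e : ℝ) := by
    have h1 : ∀ T ∈ F.filter (fun T => T.Nonempty ∧ t < 2 ^ T.card), pr (Sat T) ≤ 1 / (t : ℝ) := by
      intro T hT
      obtain ⟨hTF, -, hbig⟩ := mem_filter.1 hT
      rw [hSAT n T (hCon T hTF), one_div_pow]
      apply one_div_le_one_div_of_le htR
      exact_mod_cast hbig.le
    refine (sum_le_card_nsmul _ _ _ h1).trans ?_
    rw [nsmul_eq_mul]
    have h2 : ((F.filter (fun T => T.Nonempty ∧ t < 2 ^ T.card)).card : ℝ) ≤ k * n := by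
      have h3 : (F.filter (fun T => T.Nonempty ∧ t < 2 ^ T.card)).card ≤ k * n := by
        refine le_trans (card_le_card ?_) (cnt_ne F k hR)
        intro T hT
        obtain ⟨a, b, c⟩ := mem_filter.1 hT
        exact mem_filter.2 ⟨a, b⟩
      exact_mod_cast h3
    have heR : (0 : ℝ) < e := by exact_mod_cast he
    have ht2 : 4 * (e : ℝ) * (k * n + 1) ≤ t := by exact_mod_cast ht
    calc ((F.filter (fun T => T.Nonempty ∧ t < 2 ^ T.card)).card : ℝ) * (1 / t)
        ≤ (k * n) * (1 / t) := by gcongr
      _ = (k * n) / t := by ring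
      _ ≤ 1 / (4 * e) := by
        rw [div_le_div_iff₀ htR (by positivity)]
        nlinarith
  have heR : (0 : ℝ) < e := by exact_mod_cast he
  have hfin : 1 / (4 * e : ℝ) + 1 / (4 * e : ℝ) = 1 / (2 * e) := by
    field_simp
    ring
  linarith [hG, hsum, hfin]

end Pool.Agent.Helper52.RK.ERR
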